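import Pool.Agent.helper60.XP.SpecE

/-!
# Module xp:PQC (MP_af9036_an): `q` is constant in case (Z), and `0` if `α γ = 0`
-/

set_option autoImplicit false

open Complex Metric Set Filter Topology MeasureTheory
open V3 (En ZL)

noncomputable section

namespace XPE

theorem PQC_small (a ε : ℝ) (hε : 0 < ε) :
    ∀ᶠ η : ℝ in atTop, a * Real.exp (-(2 * Real.pi * η)) < ε := by
  have h : Tendsto (fun η : ℝ => a * Real.exp (-(2 * Real.pi * η))) atTop (𝓝 (a * 0)) := by
    apply Tendsto.const_mul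
    apply Real.tendsto_exp_neg_atTop_nhds_zero.comp
    exact tendsto_id.const_mul_atTop (by positivity)
  rw [mul_zero] at h
  exact h.eventually (gt_mem_nhds hε)

theorem PQC_cont (t : ℂ) (ht : t ≠ 0) (B : ℂ → ℂ) (hB : DifferentiableOn ℂ B (ZL t)ᶜ) (η : ℝ)
    (hη : η ≠ 0) : Continuous (fun s : ℝ => B (t * (s + η * I))) := by
  refine ContinuousOn.comp_continuous hB.continuousOn (by fun_prop) (fun s => ?_)
  rintro ⟨n, hn⟩
  have hn' : (n : ℂ) * t = t * (s + η * I) := hn
  rw [mul_comm] at hn'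
  have h := mul_left_cancel₀ ht hn'
  have h2 := congrArg Complex.im h
  simp at h2
  exact hη h2.symm

theorem PQC_nz (t : ℂ) (ht : t ≠ 0) : (2 * Real.pi * I / t) ^ 2 ≠ 0 := by
  apply pow_ne_zero
  apply div_ne_zero _ ht
  have : (Real.pi : ℂ) ≠ 0 := by exact_mod_cast Real.pi_ne_zero
  simp [this]

theorem PQC_normslice (c : ℂ) (r : ℝ) : ‖c * (Real.exp r : ℂ)‖ = ‖c‖ * Real.exp r := by
  rw [norm_mul, Complex.norm_real, Real.norm_of_nonneg (Real.exp_pos r).le]

/-- the integral of the characters over a period. -/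
theorem PQC_char (n : ℤ) :
    ∫ s in (0 : ℝ)..1, exp (-(2 * Real.pi * I * n * s)) = if n = 0 then 1 else 0 := by
  split_ifs with h
  · subst h
    simp
  · have hpi : (Real.pi : ℂ) ≠ 0 := by exact_mod_cast Real.pi_ne_zero
    have hn : (n : ℂ) ≠ 0 := by exact_mod_cast h
    have hc : (-(2 * Real.pi * I * n) : ℂ) ≠ 0 := by
      simp [hpi, hn]
    have h1 := @integral_exp_mul_complex 0 1 (-(2 * Real.pi * I * n)) hc
    have h2 : (fun s : ℝ => exp (-(2 * Real.pi * I * n * s))) =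
        fun s : ℝ => exp (-(2 * Real.pi * I * n) * s) := by
      funext s
      congr 1
      ring
    rw [h2, h1]
    have h3 : exp (-(2 * Real.pi * I * n) * ((1 : ℝ) : ℂ)) = 1 := by
      have : (-(2 * Real.pi * I * n) * ((1 : ℝ) : ℂ) : ℂ) = ((-n : ℤ) : ℂ) * (2 * Real.pi * I) := by
        push_cast
        ring
      rw [this]
      exact Complex.exp_int_mul_two_pi_mul_I (-n)
    rw [h3]
    simp

/-- unbounded slices contradict the bound of the energy: upper end. -/
theorem PQC_up (F : ℝ → ℝ) (C : ℝ)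
    (hC : ∀ (Y₁ Y₂ κ : ℝ), Y₁ < Y₂ → 0 ≤ κ → (∀ η ∈ Ioo Y₁ Y₂, κ ≤ F η) → κ * (Y₂ - Y₁) ≤ C)
    (κ : ℝ) (hκ : 0 < κ) (h : ∀ᶠ η : ℝ in atTop, κ ≤ F η) : False := by
  obtain ⟨Y₁, hY₁⟩ := eventually_atTop.1 h
  have hY : Y₁ < Y₁ + (|C| + 1) / κ := by
    have : 0 < (|C| + 1) / κ := by positivity
    linarith
  have hfin := hC Y₁ (Y₁ + (|C| + 1) / κ) κ hY hκ.le (fun η hη => hY₁ η hη.1.le)
  have heq : κ * (Y₁ + (|C| + 1) / κ - Y₁) = |C| + 1 := by
    field_simp
    ring
  rw [heq] at hfin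
  linarith [le_abs_self C]

/-- unbounded slices contradict the bound of the energy: lower end. -/
theorem PQC_lo (F : ℝ → ℝ) (C : ℝ)
    (hC : ∀ (Y₁ Y₂ κ : ℝ), Y₁ < Y₂ → 0 ≤ κ → (∀ η ∈ Ioo Y₁ Y₂, κ ≤ F η) → κ * (Y₂ - Y₁) ≤ C)
    (κ : ℝ) (hκ : 0 < κ) (h : ∀ᶠ η : ℝ in atTop, κ ≤ F (-η)) : False := by
  refine PQC_up (fun η => F (-η)) C (fun Y₁ Y₂ κ' h1 h2 h3 => ?_) κ hκ h
  have := hC (-Y₂) (-Y₁) κ' (by linarith) h2 (fun η hη => by
    have := h3 (-η) ⟨by linarith [hη.2], by linarith [hη.1]⟩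
    simpa using this)
  calc κ' * (Y₂ - Y₁) = κ' * (-Y₁ - -Y₂) := by ring
    _ ≤ C := this

/-- the exponential is eventually large. -/
theorem PQC_lin (a b : ℝ) (ha : 0 < a) : ∀ᶠ η : ℝ in atTop, b ≤ a * η := by
  have h : Tendsto (fun η : ℝ => a * η) atTop atTop := tendsto_id.const_mul_atTop ha
  exact h.eventually (eventually_ge_atTop b)

theorem PQC (hPPE : PPE_stmt) (hPFO : V3.PFO_stmt) (hPPH : PPH_stmt) (hPSL : PSL_stmt)
    (hPIN : V3.PIN_stmt) : PQC_stmt := by
  intro P A g B v q θ t α β γ hL ht hP hA hαβ hB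
  obtain ⟨-, hper, -, -⟩ := hPPE P A g B v q θ t hL ht hP hA
  obtain ⟨c, hc, hc0⟩ := hPFO q t hL.qd ht hper
  have hαβ0 : α ≠ 0 ∨ β ≠ 0 ∨ γ ≠ 0 := by
    by_contra hcon
    push Not at hcon
    rw [hcon.1, hcon.2.1, hcon.2.2, add_zero, add_zero] at hαβ
    exact PQC_nz t ht hαβ.symm
  obtain ⟨K, Y₀, j₁, j₂, c₁, c₂, hY₀, hj₁, hj₂, hjγ, hjα, hc₁, hc₂, hup, hlo⟩ :=
    hPPH B t α β γ ht hαβ0 (by intro x hx; exact hB x (by rw [hP]; exact hx))
  obtain ⟨C, hC⟩ := hPSL P A g B v q θ t hL ht hP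
  have hBd : DifferentiableOn ℂ B (ZL t)ᶜ := by rw [← hP]; exact hL.Bd
  -- slices from below at the upper end
  have hlowU : ∀ n : ℤ, ∀ η : ℝ, Y₀ ≤ η → |K| * Real.exp (-(2 * Real.pi * η)) < 1 / 2 →
      1 / 2 * (‖c n‖ * Real.exp (-(2 * Real.pi * n * η))) -
        ‖c j₁‖ * Real.exp (-(2 * Real.pi * j₁ * η)) ≤
      ∫ s in (0 : ℝ)..1, En θ B q (t * (s + η * I)) := by
    intro n η h3 h1
    have hη0 : 0 < η := lt_of_lt_of_le hY₀ h3
    have hin := hPIN B q θ t c₁ j₁ n η (|K| * Real.exp (-(2 * Real.pi * η))) hL.qd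
      (PQC_cont t ht B hBd η hη0.ne') hL.th hc₁ (by positivity) (by linarith)
      (fun s => le_trans (hup s η h3)
        (mul_le_mul_of_nonneg_right (le_abs_self K) (Real.exp_pos _).le))
    rw [hc n η, hc j₁ η, PQC_normslice, PQC_normslice] at hin
    have e4 : 1 / 2 * (‖c n‖ * Real.exp (-(2 * Real.pi * n * η))) ≤
        (1 - |K| * Real.exp (-(2 * Real.pi * η))) * (‖c n‖ * Real.exp (-(2 * Real.pi * n * η))) :=
      mul_le_mul_of_nonneg_right (by linarith) (by positivity)
    linarith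
  -- slices from below at the lower end
  have hlowL : ∀ n : ℤ, ∀ η : ℝ, Y₀ ≤ η → |K| * Real.exp (-(2 * Real.pi * η)) < 1 / 2 →
      1 / 2 * (‖c n‖ * Real.exp (2 * Real.pi * n * η)) -
        ‖c j₂‖ * Real.exp (2 * Real.pi * j₂ * η) ≤
      ∫ s in (0 : ℝ)..1, En θ B q (t * (s + (-η : ℝ) * I)) := by
    intro n η h3 h1
    have hη0 : 0 < η := lt_of_lt_of_le hY₀ h3
    have hexp : Real.exp (2 * Real.pi * -η) = Real.exp (-(2 * Real.pi * η)) := by
      congr 1
      ring
    have hin := hPIN B q θ t c₂ j₂ n (-η) (|K| * Real.exp (-(2 * Real.pi * η))) hL.qd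
      (PQC_cont t ht B hBd (-η) (by linarith : -η < 0).ne) hL.th hc₂ (by positivity) (by linarith)
      (fun s => le_trans (hlo s (-η) (by linarith)) (by
        rw [hexp]
        exact mul_le_mul_of_nonneg_right (le_abs_self K) (Real.exp_pos _).le))
    rw [hc n (-η), hc j₂ (-η), PQC_normslice, PQC_normslice] at hin
    have g1 : -(2 * Real.pi * (n : ℝ) * -η) = 2 * Real.pi * n * η := by ring
    have g2 : -(2 * Real.pi * (j₂ : ℝ) * -η) = 2 * Real.pi * j₂ * η := by ring
    rw [g1, g2] at hin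
    have e4 : 1 / 2 * (‖c n‖ * Real.exp (2 * Real.pi * n * η)) ≤
        (1 - |K| * Real.exp (-(2 * Real.pi * η))) * (‖c n‖ * Real.exp (2 * Real.pi * n * η)) :=
      mul_le_mul_of_nonneg_right (by linarith) (by positivity)
    linarith
  -- upper end
  have hneg : ∀ n : ℤ, n < 0 → c n = 0 := by
    intro n hn
    by_contra hcn
    have hcn' : 0 < ‖c n‖ := norm_pos_iff.2 hcn
    refine PQC_up _ C hC 1 one_pos ?_
    filter_upwards [PQC_small |K| (1 / 2) (by norm_num), eventually_ge_atTop Y₀,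
      PQC_lin (1 / 2 * ‖c n‖) (‖c j₁‖ + 1) (by positivity)] with η h1 h3 h4
    have hη0 : 0 < η := lt_of_lt_of_le hY₀ h3
    have e1 : η ≤ Real.exp (-(2 * Real.pi * n * η)) := by
      have hn' : (n : ℝ) ≤ -1 := by
        have : n ≤ -1 := by omega
        exact_mod_cast this
      have h5 : η ≤ -(2 * Real.pi * n * η) := by
        have hpi := Real.pi_gt_three
        have : 0 ≤ (2 * Real.pi * (-(n : ℝ)) - 1) * η := by
          apply mul_nonneg _ hη0.le
          nlinarith
        linarith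
      have := Real.add_one_le_exp (-(2 * Real.pi * n * η))
      linarith
    have e2 : Real.exp (-(2 * Real.pi * j₁ * η)) ≤ 1 := by
      apply Real.exp_le_one_iff.2
      have hj' : (0 : ℝ) ≤ j₁ := by exact_mod_cast hj₁
      have : 0 ≤ 2 * Real.pi * (j₁ : ℝ) * η := by positivity
      linarith
    have e3 : ‖c j₁‖ * Real.exp (-(2 * Real.pi * j₁ * η)) ≤ ‖c j₁‖ :=
      mul_le_of_le_one_right (norm_nonneg _) e2
    have e4 : 1 / 2 * ‖c n‖ * η ≤ 1 / 2 * (‖c n‖ * Real.exp (-(2 * Real.pi * n * η))) := by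
      rw [← mul_assoc]
      exact mul_le_mul_of_nonneg_left e1 (by positivity)
    have := hlowU n η h3 h1
    linarith
  -- lower end
  have hpos : ∀ n : ℤ, 0 < n → c n = 0 := by
    intro n hn
    by_contra hcn
    have hcn' : 0 < ‖c n‖ := norm_pos_iff.2 hcn
    refine PQC_lo (fun η => ∫ s in (0 : ℝ)..1, En θ B q (t * (s + η * I))) C hC 1 one_pos ?_
    filter_upwards [PQC_small |K| (1 / 2) (by norm_num), eventually_ge_atTop Y₀,
      PQC_lin (1 / 2 * ‖c n‖) (‖c j₂‖ + 1) (by positivity)] with η h1 h3 h4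
    have hη0 : 0 < η := lt_of_lt_of_le hY₀ h3
    have e1 : η ≤ Real.exp (2 * Real.pi * n * η) := by
      have hn' : (1 : ℝ) ≤ n := by
        have : 1 ≤ n := by omega
        exact_mod_cast this
      have h5 : η ≤ 2 * Real.pi * n * η := by
        have hpi := Real.pi_gt_three
        have : 0 ≤ (2 * Real.pi * (n : ℝ) - 1) * η := by
          apply mul_nonneg _ hη0.le
          nlinarith
        linarith
      have := Real.add_one_le_exp (2 * Real.pi * n * η)
      linarith
    have e2 : Real.exp (2 * Real.pi * j₂ * η) ≤ 1 := by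
      apply Real.exp_le_one_iff.2
      have hj' : (j₂ : ℝ) ≤ 0 := by exact_mod_cast hj₂
      have : 0 ≤ 2 * Real.pi * (-(j₂ : ℝ)) * η := by
        have := neg_nonneg.2 hj'
        positivity
      linarith
    have e3 : ‖c j₂‖ * Real.exp (2 * Real.pi * j₂ * η) ≤ ‖c j₂‖ :=
      mul_le_of_le_one_right (norm_nonneg _) e2
    have e4 : 1 / 2 * ‖c n‖ * η ≤ 1 / 2 * (‖c n‖ * Real.exp (2 * Real.pi * n * η)) := by
      rw [← mul_assoc]
      exact mul_le_mul_of_nonneg_left e1 (by positivity)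
    have := hlowL n η h3 h1
    linarith
  have hne : ∀ n : ℤ, n ≠ 0 → c n = 0 := fun n hn => by
    rcases lt_or_gt_of_ne hn with h | h
    · exact hneg n h
    · exact hpos n h
  -- `q` is constant
  have hq : ∀ x, q x = c 0 := by
    have hqd : Differentiable ℂ (fun x => q x - c 0) := hL.qd.sub_const _
    obtain ⟨c', hc', hc'0⟩ := hPFO (fun x => q x - c 0) t hqd ht (fun x => by
      show q (x + t) - c 0 = q x - c 0
      rw [hper x])
    have hz : ∀ n, c' n = 0 := by
      intro n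
      have h1 := hc' n 0
      have h2 := hc n 0
      have hi1 : IntervalIntegrable (fun s : ℝ => q (t * (s + ((0 : ℝ) : ℂ) * I)) *
          exp (-(2 * Real.pi * I * n * s))) volume 0 1 := by
        apply Continuous.intervalIntegrable
        have := hL.qd.continuous
        fun_prop
      have hi2 : IntervalIntegrable (fun s : ℝ => c 0 *
          exp (-(2 * Real.pi * I * n * s))) volume 0 1 := by
        apply Continuous.intervalIntegrable
        fun_prop
      have h3 : ∫ s in (0 : ℝ)..1, (q (t * (s + ((0 : ℝ) : ℂ) * I)) - c 0) *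
          exp (-(2 * Real.pi * I * n * s)) =
          (∫ s in (0 : ℝ)..1, q (t * (s + ((0 : ℝ) : ℂ) * I)) *
            exp (-(2 * Real.pi * I * n * s))) -
          ∫ s in (0 : ℝ)..1, c 0 * exp (-(2 * Real.pi * I * n * s)) := by
        rw [← intervalIntegral.integral_sub hi1 hi2]
        congr 1
        funext s
        ring
      rw [h3, h2, intervalIntegral.integral_const_mul, PQC_char] at h1
      simp only [mul_zero, neg_zero, Real.exp_zero, ofReal_one, mul_one] at h1
      rw [← h1]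
      split_ifs with h
      · rw [h]
        ring
      · rw [hne n h]
        ring
    intro x
    have := hc'0 hz x
    exact sub_eq_zero.1 this
  refine ⟨⟨c 0, hq⟩, ?_⟩
  intro hcase
  have hc00 : c 0 = 0 := by
    by_contra hcn
    have hcn' : 0 < ‖c 0‖ := norm_pos_iff.2 hcn
    rcases hcase with hα | hγ
    · have hj : c j₂ = 0 := hne j₂ (by have := hjα hα; omega)
      refine PQC_lo (fun η => ∫ s in (0 : ℝ)..1, En θ B q (t * (s + η * I))) C hC
        (1 / 2 * ‖c 0‖) (by positivity) ?_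
      filter_upwards [PQC_small |K| (1 / 2) (by norm_num), eventually_ge_atTop Y₀] with η h1 h3
      have := hlowL 0 η h3 h1
      rw [hj] at this
      simpa using this
    · have hj : c j₁ = 0 := hne j₁ (by have := hjγ hγ; omega)
      refine PQC_up _ C hC (1 / 2 * ‖c 0‖) (by positivity) ?_
      filter_upwards [PQC_small |K| (1 / 2) (by norm_num), eventually_ge_atTop Y₀] with η h1 h3
      have := hlowU 0 η h3 h1
      rw [hj] at this
      simpa using this
  intro x
  rw [hq x, hc00]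

end XPE
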